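import Pool.Agent.Helper60.L1Full.Stmts
import Pool.Agent.Helper2.DualL1.Comb

/-!
# AVG: Rademacher averages of the functionals given by `L1K`
-/

namespace DualL1

open MeasureTheory Cardinal Filter Topology
open scoped ENNReal Classical

universe u v w

section
variable {𝕜 : Type v} [RCLike 𝕜] {Y : Type w} [NormedAddCommGroup Y] [NormedSpace 𝕜 Y]

/-- Bounded nets of functionals have pointwise limits along an ultrafilter. -/
theorem AVG_ultralimit {A : Type*} (U : Ultrafilter A) (g : A → (Y →L[𝕜] 𝕜)) {C : ℝ}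
    (hg : ∀ N, ‖g N‖ ≤ C) :
    ∃ G : Y →L[𝕜] 𝕜, ∀ y, Tendsto (fun N => g N y) U (𝓝 (G y)) := by
  have hcomp := WeakDual.isCompact_closedBall (0 : StrongDual 𝕜 Y) C
  have hmem : ∀ N, (StrongDual.toWeakDual (g N)) ∈
      (WeakDual.toStrongDual ⁻¹' Metric.closedBall (0 : StrongDual 𝕜 Y) C) := by
    intro N
    rw [Set.mem_preimage]
    simpa using hg N
  obtain ⟨G, hG, hlim⟩ := hcomp.ultrafilter_le_nhds (U.map (fun N => StrongDual.toWeakDual (g N)))
    (by
      rw [Filter.le_principal_iff, Ultrafilter.coe_map, Filter.mem_map]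
      exact Filter.Eventually.of_forall hmem)
  refine ⟨WeakDual.toStrongDual G, fun y => ?_⟩
  have h1 : Tendsto (fun N => StrongDual.toWeakDual (g N)) U (𝓝 G) := hlim
  have h2 := (WeakDual.eval_continuous y).tendsto G
  exact h2.comp h1

theorem AVG_flip {J : Type*} [Fintype J] [DecidableEq J] (j : J) (h : (J → Bool) → ℝ)
    (hh : ∀ r : J → Bool, h (Function.update r j (!(r j))) = h r) :
    ∑ r : J → Bool, sg (r j) * h r = 0 := by
  set flip : (J → Bool) → (J → Bool) := fun r => Function.update r j (!(r j)) with hf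
  have hinv : Function.Involutive flip := by
    intro ε
    funext k
    by_cases hk : k = j
    · subst hk; simp [flip]
    · simp [flip, hk]
  have h1 : ∑ r : J → Bool, sg (r j) * h r = ∑ r : J → Bool, -(sg (r j) * h r) := by
    refine Fintype.sum_bijective flip hinv.bijective _ _ (fun r => ?_)
    rw [hf]
    simp only
    rw [hh, Function.update_self, sg_not]
    ring
  rw [Finset.sum_neg_distrib] at h1
  linarith

variable {I : Type u}

/-- extension by `true` -/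
noncomputable def AVG_ext (G : Finset I) (r : G → Bool) (i : I) : Bool := if h : i ∈ G then r ⟨i, h⟩ else true

/-- the sign pattern -/
noncomputable def AVG_pat (α : I → Bool) (G : Finset I) (r : G → Bool)
    (k : Finset I × Finset (Finset I) × I) : Bool :=
  (decide (k.1.filter (fun i => α i = true) ∈ k.2.1)) == AVG_ext G r k.2.2

/-- the averages -/
noncomputable def AVG_avg (e : (Finset I × Finset (Finset I) × I) ≃ I)
    (Z : (I → Bool) → (Y →L[𝕜] 𝕜)) (α : I → Bool) (G : Finset I) (ξ : I) : Y →L[𝕜] 𝕜 :=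
  if ξ ∈ G then (((2 ^ G.card : ℝ)⁻¹ : ℝ) : 𝕜) • ∑ r : G → Bool,
    ((sg (AVG_ext G r ξ) : ℝ) : 𝕜) • Z (fun i => AVG_pat α G r (e.symm i)) else 0

theorem AVG_val (e : (Finset I × Finset (Finset I) × I) ≃ I)
    (Z : (I → Bool) → (Y →L[𝕜] 𝕜)) (y : I → Y)
    (hZ : ∀ θ i, RCLike.re (Z θ (y i)) = sg (θ i)) (α : I → Bool) (G : Finset I) (ξ : I)
    (hξ : ξ ∈ G) (F : Finset I) (𝒮 : Finset (Finset I)) (η : I) :
    RCLike.re (AVG_avg e Z α G ξ (y (e (F, 𝒮, η)))) =
      if ξ = η then (if F.filter (fun i => α i = true) ∈ 𝒮 then 1 else -1) else 0 := by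
  set φ : ℝ := sg (decide (F.filter (fun i => α i = true) ∈ 𝒮)) with hφ
  have hφ2 : φ = if F.filter (fun i => α i = true) ∈ 𝒮 then 1 else -1 := by
    rw [hφ, sg]
    simp only [decide_eq_true_eq]
  rw [AVG_avg, if_pos hξ, smul_apply, smul_eq_mul, RCLike.re_ofReal_mul,
    sum_apply, map_sum]
  have h1 : ∀ r : G → Bool, RCLike.re ((((sg (AVG_ext G r ξ) : ℝ) : 𝕜) •
      Z (fun i => AVG_pat α G r (e.symm i))) (y (e (F, 𝒮, η)))) =
      sg (AVG_ext G r ξ) * (φ * sg (AVG_ext G r η)) := by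
    intro r
    rw [smul_apply, smul_eq_mul, RCLike.re_ofReal_mul, hZ, e.symm_apply_apply, AVG_pat, sg_beq]
  rw [Finset.sum_congr rfl fun r _ => h1 r]
  by_cases hξη : ξ = η
  · subst hξη
    rw [if_pos rfl, ← hφ2]
    have h2 : ∀ r : G → Bool, sg (AVG_ext G r ξ) * (φ * sg (AVG_ext G r ξ)) = φ := by
      intro r
      have := sg_mul_self (AVG_ext G r ξ)
      calc sg (AVG_ext G r ξ) * (φ * sg (AVG_ext G r ξ)) =
          φ * (sg (AVG_ext G r ξ) * sg (AVG_ext G r ξ)) := by ring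
        _ = φ := by rw [this, mul_one]
    rw [Finset.sum_congr rfl fun r _ => h2 r, Finset.sum_const, Finset.card_univ,
      Fintype.card_fun, Fintype.card_bool, Fintype.card_coe, nsmul_eq_mul, ← mul_assoc]
    push_cast
    rw [inv_mul_cancel₀ (by positivity), one_mul]
  · rw [if_neg hξη]
    have h3 : ∀ r : G → Bool, AVG_ext G r ξ = r ⟨ξ, hξ⟩ := fun r => by
      rw [AVG_ext, dif_pos hξ]
    have h4 : ∑ r : G → Bool, sg (AVG_ext G r ξ) * (φ * sg (AVG_ext G r η)) = 0 := by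
      rw [Finset.sum_congr rfl fun r _ => by rw [h3 r]]
      apply AVG_flip (⟨ξ, hξ⟩ : G) (fun r => φ * sg (AVG_ext G r η))
      intro r
      simp only [AVG_ext]
      by_cases hη : η ∈ G
      · rw [dif_pos hη, dif_pos hη, Function.update_of_ne]
        intro hc
        exact hξη (congrArg Subtype.val hc).symm
      · rw [dif_neg hη, dif_neg hη]
    rw [h4, mul_zero]

theorem AVG_norm (e : (Finset I × Finset (Finset I) × I) ≃ I)
    (Z : (I → Bool) → (Y →L[𝕜] 𝕜)) {C : ℝ} (hZ : ∀ θ, ‖Z θ‖ ≤ C) (α : I → Bool)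
    (G S : Finset I) (a : I → 𝕜) (ha : ∀ i, ‖a i‖ ≤ 1) :
    ‖∑ ξ ∈ S, a ξ • AVG_avg e Z α G ξ‖ ≤ C * Real.sqrt S.card := by
  have hC : 0 ≤ C := (norm_nonneg _).trans (hZ (fun _ => true))
  set c : G → 𝕜 := fun j => if (j : I) ∈ S then a j else 0 with hc
  have h1 : ∑ ξ ∈ S, a ξ • AVG_avg e Z α G ξ = ∑ j : G, c j • AVG_avg e Z α G j := by
    have h2 : ∑ ξ ∈ S, a ξ • AVG_avg e Z α G ξ = ∑ ξ ∈ S, if ξ ∈ G then
        a ξ • AVG_avg e Z α G ξ else 0 := by
      apply Finset.sum_congr rfl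
      intro ξ _
      by_cases hξ : ξ ∈ G
      · rw [if_pos hξ]
      · rw [if_neg hξ, AVG_avg, if_neg hξ]
        ext x
        simp only [smul_apply, zero_apply, smul_eq_mul, mul_zero]
    rw [h2, ← Finset.sum_filter, Finset.filter_mem_eq_inter, Finset.inter_comm,
      ← Finset.filter_mem_eq_inter, Finset.sum_filter,
      ← Finset.sum_coe_sort G (fun ξ => if ξ ∈ S then a ξ • AVG_avg e Z α G ξ else 0)]
    apply Finset.sum_congr rfl
    intro j _
    simp only [hc]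
    by_cases hj : (j : I) ∈ S
    · rw [if_pos hj, if_pos hj]
    · rw [if_neg hj, if_neg hj]
      ext x
      simp only [smul_apply, zero_apply, smul_eq_mul, zero_mul]
  have h3 : ∑ j : G, c j • AVG_avg e Z α G j = (((2 ^ G.card : ℝ)⁻¹ : ℝ) : 𝕜) •
      ∑ r : G → Bool, (∑ j : G, ((sg (r j) : ℝ) : 𝕜) * c j) •
        Z (fun i => AVG_pat α G r (e.symm i)) := by
    rw [Finset.smul_sum]
    have h4 : ∀ j : G, c j • AVG_avg e Z α G j = ∑ r : G → Bool,
        (((2 ^ G.card : ℝ)⁻¹ : ℝ) : 𝕜) • (((sg (r j) : ℝ) : 𝕜) * c j) •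
          Z (fun i => AVG_pat α G r (e.symm i)) := by
      intro j
      rw [AVG_avg, if_pos j.2, Finset.smul_sum, Finset.smul_sum]
      apply Finset.sum_congr rfl
      intro r _
      have h5 : AVG_ext G r j = r j := by rw [AVG_ext, dif_pos j.2]
      rw [h5, smul_smul, smul_smul, smul_smul]
      congr 1
      ring
    rw [Finset.sum_congr rfl fun j _ => h4 j, Finset.sum_comm]
    apply Finset.sum_congr rfl
    intro r _
    rw [← Finset.smul_sum, ← Finset.sum_smul]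
  rw [h1, h3, norm_smul, RCLike.norm_ofReal, abs_of_pos (by positivity)]
  have h4 : ‖∑ r : G → Bool, (∑ j : G, ((sg (r j) : ℝ) : 𝕜) * c j) •
      Z (fun i => AVG_pat α G r (e.symm i))‖
      ≤ (∑ r : G → Bool, ‖∑ j : G, ((sg (r j) : ℝ) : 𝕜) * c j‖) * C := by
    refine (norm_sum_le _ _).trans ?_
    rw [Finset.sum_mul]
    refine Finset.sum_le_sum (fun r _ => ?_)
    rw [norm_smul]
    exact mul_le_mul_of_nonneg_left (hZ _) (norm_nonneg _)
  have h5 := sum_norm_sign_le c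
  rw [Fintype.card_coe] at h5
  have h6 : ∑ j : G, ‖c j‖ ^ 2 ≤ (S.card : ℝ) := by
    rw [Finset.sum_coe_sort G (fun ξ => ‖if ξ ∈ S then a ξ else 0‖ ^ 2)]
    calc ∑ ξ ∈ G, ‖if ξ ∈ S then a ξ else 0‖ ^ 2 ≤ ∑ ξ ∈ G, if ξ ∈ S then (1 : ℝ) else 0 := by
          apply Finset.sum_le_sum
          intro ξ _
          by_cases hξ : ξ ∈ S
          · rw [if_pos hξ, if_pos hξ]
            exact pow_le_one₀ (norm_nonneg _) (ha ξ)
          · rw [if_neg hξ, if_neg hξ]
            simp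
      _ = ((G.filter (fun ξ => ξ ∈ S)).card : ℝ) := by
          rw [Finset.sum_ite, Finset.sum_const, Finset.sum_const_zero, add_zero, nsmul_eq_mul,
            mul_one]
      _ ≤ (S.card : ℝ) := by
          have : G.filter (fun ξ => ξ ∈ S) ⊆ S := fun ξ hξ => (Finset.mem_filter.1 hξ).2
          exact_mod_cast Finset.card_le_card this
  calc (2 ^ G.card : ℝ)⁻¹ * ‖∑ r : G → Bool, (∑ j : G, ((sg (r j) : ℝ) : 𝕜) * c j) •
        Z (fun i => AVG_pat α G r (e.symm i))‖
      ≤ (2 ^ G.card : ℝ)⁻¹ * ((∑ r : G → Bool, ‖∑ j : G, ((sg (r j) : ℝ) : 𝕜) * c j‖) * C) := by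
        gcongr
    _ ≤ (2 ^ G.card : ℝ)⁻¹ * ((2 ^ G.card * Real.sqrt (∑ j : G, ‖c j‖ ^ 2)) * C) := by gcongr
    _ = C * Real.sqrt (∑ j : G, ‖c j‖ ^ 2) := by
        field_simp
    _ ≤ C * Real.sqrt S.card := by gcongr

end

theorem st_AVG : ST_AVG.{u, v, w} := by
  intro 𝕜 _ I Y _ _ hI hL
  obtain ⟨C, y, hy, hz⟩ := hL
  choose Z hZ1 hZ2 using hz
  have hcard : #(Finset I × Finset (Finset I) × I) = #I := by
    have h0 : ℵ₀ ≤ #I := Cardinal.aleph0_le_mk I
    rw [Cardinal.mk_prod, Cardinal.mk_prod, Cardinal.mk_finset_of_infinite,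
      Cardinal.mk_finset_of_infinite, Cardinal.mk_finset_of_infinite]
    simp only [Cardinal.lift_id]
    rw [Cardinal.mul_eq_self h0, Cardinal.mul_eq_self h0]
  obtain ⟨e⟩ := Cardinal.eq.1 hcard
  refine ⟨C, fun F 𝒮 η => y (e (F, 𝒮, η)), fun F 𝒮 η => hy _, fun α => ?_⟩
  set U : Ultrafilter (Finset I) := Ultrafilter.of atTop with hU
  have hU2 : (U : Filter (Finset I)) ≤ atTop := Ultrafilter.of_le _
  have hb : ∀ ξ G, ‖AVG_avg e Z α G ξ‖ ≤ C := by
    intro ξ G
    have := AVG_norm e Z hZ1 α G {ξ} (fun _ => 1) (fun _ => by rw [norm_one])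
    simpa using this
  choose z hzl using fun ξ => AVG_ultralimit U (fun G => AVG_avg e Z α G ξ) (hb ξ)
  have hZ3 : ∀ θ i, RCLike.re (Z θ (y i)) = sg (θ i) := by
    intro θ i
    rw [hZ2, sg]
  refine ⟨z, fun F 𝒮 ξ η => ?_, fun G a ha => ?_⟩
  · have h1 : Tendsto (fun G => RCLike.re (AVG_avg e Z α G ξ (y (e (F, 𝒮, η))))) U
        (𝓝 (RCLike.re (z ξ (y (e (F, 𝒮, η)))))) :=
      (RCLike.continuous_re.tendsto _).comp (hzl ξ _)
    have h2 : ∀ᶠ G in (U : Filter (Finset I)),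
        RCLike.re (AVG_avg e Z α G ξ (y (e (F, 𝒮, η)))) =
        if ξ = η then (if F.filter (fun i => α i = true) ∈ 𝒮 then 1 else -1) else 0 := by
      apply hU2
      filter_upwards [eventually_ge_atTop ({ξ} : Finset I)] with G hG
      exact AVG_val e Z y hZ3 α G ξ (hG (Finset.mem_singleton_self ξ)) F 𝒮 η
    exact tendsto_nhds_unique h1 ((tendsto_congr' h2).2 tendsto_const_nhds)
  · have hC : 0 ≤ C := (norm_nonneg _).trans (hZ1 (fun _ => true))
    refine ContinuousLinearMap.opNorm_le_bound _ (by positivity) (fun x => ?_)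
    have h1 : Tendsto (fun N => ‖(∑ ξ ∈ G, a ξ • AVG_avg e Z α N ξ) x‖) U
        (𝓝 ‖(∑ ξ ∈ G, a ξ • z ξ) x‖) := by
      refine Tendsto.norm ?_
      simp only [_root_.sum_apply, _root_.smul_apply]
      exact tendsto_finsetSum _ (fun n _ => (hzl n x).const_smul (a n))
    refine le_of_tendsto h1 ?_
    filter_upwards with N
    exact ContinuousLinearMap.le_of_opNorm_le _ (AVG_norm e Z hZ1 α N G a ha) x

end DualL1
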