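import Pool.Agent.Helper60.L1Full.Stmts

/-!
# RIESZ: Riesz products
-/

namespace DualL1

open MeasureTheory Cardinal
open scoped ENNReal Classical

universe u v w

noncomputable section

/-- the sign of a coin -/
def RIESZ_sg (b : Bool) : ℝ := if b = true then 1 else -1

theorem RIESZ_sg_abs (b : Bool) : |RIESZ_sg b| = 1 := by
  cases b <;> simp [RIESZ_sg]

theorem RIESZ_sg_meas : Measurable RIESZ_sg := measurable_of_countable _

theorem RIESZ_int_coin (f : Bool → ℝ) : ∫ b, f b ∂coin = (f true + f false) / 2 := by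
  unfold coin
  rw [integral_add_measure, integral_smul_measure, integral_smul_measure, integral_dirac,
    integral_dirac]
  · simp only [ENNReal.toReal_inv, ENNReal.toReal_ofNat, smul_eq_mul]
    ring
  · exact Integrable.smul_measure (integrable_dirac (by simp)) (by simp)
  · exact Integrable.smul_measure (integrable_dirac (by simp)) (by simp)

variable {I : Type u}

theorem RIESZ_int_prod (s : Finset I) (f : I → Bool → ℝ) :
    ∫ x, ∏ i ∈ s, f i (x i) ∂(coinPi I) = ∏ i ∈ s, ((f i true + f i false) / 2) := by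
  have h1 : (fun x : I → Bool => ∏ i ∈ s, f i (x i)) =
      fun x => (fun y : s → Bool => ∏ i : s, f i (y i)) (s.restrict x) := by
    funext x
    simp only [Finset.restrict]
    rw [Finset.prod_coe_sort s (fun i => f i (x i))]
  rw [h1]
  unfold coinPi
  have h2 := integral_restrict_infinitePi (X := fun _ : I => Bool) (μ := fun _ : I => coin)
    (s := s) (f := fun y : s → Bool => ∏ i : s, f i (y i))
    (measurable_of_countable _).aestronglyMeasurable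
  rw [h2, integral_fintype_prod_eq_prod (fun (i : s) (b : Bool) => f i b),
    ← Finset.prod_coe_sort s (fun i => (f i true + f i false) / 2)]
  exact Finset.prod_congr rfl fun i _ => RIESZ_int_coin (f i)

/-- the Walsh functions -/
def RIESZ_w (E : Finset I) (x : I → Bool) : ℝ := ∏ i ∈ E, RIESZ_sg (x i)

theorem RIESZ_w_abs (E : Finset I) (x : I → Bool) : |RIESZ_w E x| = 1 := by
  unfold RIESZ_w
  rw [Finset.abs_prod]
  exact Finset.prod_eq_one fun i _ => RIESZ_sg_abs _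

theorem RIESZ_w_meas (E : Finset I) : Measurable (RIESZ_w E) :=
  Finset.measurable_prod _ fun i _ => RIESZ_sg_meas.comp (measurable_pi_apply i)

theorem RIESZ_ortho (E F : Finset I) : ∫ x, RIESZ_w E x * RIESZ_w F x ∂(coinPi I) =
    if E = F then 1 else 0 := by
  have h1 : (fun x : I → Bool => RIESZ_w E x * RIESZ_w F x) = fun x => ∏ i ∈ E ∪ F,
      (fun (i : I) (b : Bool) => (if i ∈ E then RIESZ_sg b else 1) *
        (if i ∈ F then RIESZ_sg b else 1)) i (x i) := by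
    funext x
    unfold RIESZ_w
    rw [Finset.prod_mul_distrib, Finset.prod_ite_mem, Finset.prod_ite_mem,
      Finset.union_inter_cancel_left, Finset.union_inter_cancel_right]
  have h0 := RIESZ_int_prod (E ∪ F) (fun (i : I) (b : Bool) => (if i ∈ E then RIESZ_sg b else 1) *
        (if i ∈ F then RIESZ_sg b else 1))
  rw [h1]
  refine h0.trans ?_
  by_cases h : E = F
  · rw [if_pos h]
    apply Finset.prod_eq_one
    intro i hi
    subst h
    rw [Finset.union_self] at hi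
    simp [hi, RIESZ_sg]
  · rw [if_neg h]
    have h2 : ∃ i, ¬ (i ∈ E ↔ i ∈ F) := by
      by_contra hc
      push Not at hc
      exact h (Finset.ext hc)
    obtain ⟨i, hi⟩ := h2
    have hi' : i ∈ E ∪ F := by
      rw [Finset.mem_union]
      tauto
    apply Finset.prod_eq_zero hi'
    by_cases h3 : i ∈ E
    · have h4 : i ∉ F := fun h5 => hi ⟨fun _ => h5, fun _ => h3⟩
      simp [h3, h4, RIESZ_sg]
    · have h4 : i ∈ F := by
        by_contra h5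
        exact hi ⟨fun h => (h3 h).elim, fun h => (h5 h).elim⟩
      simp [h3, h4, RIESZ_sg]

variable (𝕜 : Type v) [RCLike 𝕜]

theorem RIESZ_memLp (E : Finset I) :
    MemLp (fun x => ((RIESZ_w E x : ℝ) : 𝕜)) 1 (coinPi I) := by
  apply MemLp.of_bound _ 1
  · filter_upwards with x
    rw [RCLike.norm_ofReal, RIESZ_w_abs]
  · exact (RCLike.continuous_ofReal.measurable.comp (RIESZ_w_meas E)).aestronglyMeasurable

/-- the Walsh functions as elements of `L¹` -/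
def RIESZ_W (E : Finset I) : Lp 𝕜 1 (coinPi I) := (RIESZ_memLp 𝕜 E).toLp _

theorem RIESZ_W_sum (𝓔 : Finset (Finset I)) (a : Finset I → 𝕜) :
    ((∑ E ∈ 𝓔, a E • RIESZ_W 𝕜 E : Lp 𝕜 1 (coinPi I)) : (I → Bool) → 𝕜) =ᵐ[coinPi I]
      fun x => ∑ E ∈ 𝓔, a E * ((RIESZ_w E x : ℝ) : 𝕜) := by
  induction 𝓔 using Finset.induction_on with
  | empty =>
    simp only [Finset.sum_empty]
    exact Lp.coeFn_zero _ _ _
  | insert E 𝓔 hE ih =>
    rw [Finset.sum_insert hE]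
    filter_upwards [Lp.coeFn_add (a E • RIESZ_W 𝕜 E) (∑ E ∈ 𝓔, a E • RIESZ_W 𝕜 E), ih,
      Lp.coeFn_smul (a E) (RIESZ_W 𝕜 E), (RIESZ_memLp 𝕜 E).coeFn_toLp] with x h1 h2 h3 h4
    rw [h1, Pi.add_apply, h2, h3, Pi.smul_apply, Finset.sum_insert hE]
    have h4' : (RIESZ_W 𝕜 E : (I → Bool) → 𝕜) x = ((RIESZ_w E x : ℝ) : 𝕜) := h4
    rw [h4', smul_eq_mul]

theorem RIESZ_norm (𝓔 : Finset (Finset I)) (a : Finset I → 𝕜) :
    ‖∑ E ∈ 𝓔, a E • RIESZ_W 𝕜 E‖ =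
      ∫ x, ‖∑ E ∈ 𝓔, a E * ((RIESZ_w E x : ℝ) : 𝕜)‖ ∂(coinPi I) := by
  rw [L1.norm_eq_integral_norm]
  apply integral_congr_ae
  filter_upwards [RIESZ_W_sum 𝕜 𝓔 a] with x hx
  rw [hx]

theorem RIESZ_integrable (E F : Finset I) :
    Integrable (fun x => RIESZ_w E x * RIESZ_w F x) (coinPi I) := by
  apply Integrable.of_bound (C := 1)
  · exact ((RIESZ_w_meas E).mul (RIESZ_w_meas F)).aestronglyMeasurable
  · filter_upwards with x
    rw [Real.norm_eq_abs, abs_mul, RIESZ_w_abs, RIESZ_w_abs, one_mul]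

theorem RIESZ_sq (𝓔 : Finset (Finset I)) (a : Finset I → 𝕜) (x : I → Bool) :
    ‖∑ E ∈ 𝓔, a E * ((RIESZ_w E x : ℝ) : 𝕜)‖ ^ 2 =
      ∑ E ∈ 𝓔, ∑ F ∈ 𝓔, RCLike.re (a E * (starRingEnd 𝕜) (a F)) * (RIESZ_w E x * RIESZ_w F x) := by
  have h1 : ∀ z : 𝕜, ‖z‖ ^ 2 = RCLike.re (z * (starRingEnd 𝕜) z) := by
    intro z
    rw [RCLike.mul_conj, ← RCLike.ofReal_pow, RCLike.ofReal_re]
  rw [h1, map_sum, Finset.sum_mul_sum, map_sum]
  apply Finset.sum_congr rfl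
  intro E _
  rw [map_sum]
  apply Finset.sum_congr rfl
  intro F _
  rw [show (starRingEnd 𝕜) (a F * ((RIESZ_w F x : ℝ) : 𝕜)) =
    (starRingEnd 𝕜) (a F) * ((RIESZ_w F x : ℝ) : 𝕜) by rw [map_mul, RCLike.conj_ofReal]]
  have h2 : a E * ((RIESZ_w E x : ℝ) : 𝕜) * ((starRingEnd 𝕜) (a F) * ((RIESZ_w F x : ℝ) : 𝕜)) =
      ((RIESZ_w E x * RIESZ_w F x : ℝ) : 𝕜) * (a E * (starRingEnd 𝕜) (a F)) := by
    push_cast; ring
  rw [h2, RCLike.re_ofReal_mul, mul_comm]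

theorem RIESZ_int_sq (𝓔 : Finset (Finset I)) (a : Finset I → 𝕜) :
    ∫ x, ‖∑ E ∈ 𝓔, a E * ((RIESZ_w E x : ℝ) : 𝕜)‖ ^ 2 ∂(coinPi I) = ∑ E ∈ 𝓔, ‖a E‖ ^ 2 := by
  simp only [RIESZ_sq]
  rw [integral_finsetSum]
  · apply Finset.sum_congr rfl
    intro E hE
    rw [integral_finsetSum]
    · rw [Finset.sum_congr rfl fun F _ => by
        rw [integral_const_mul, RIESZ_ortho]]
      rw [Finset.sum_eq_single E]
      · rw [if_pos rfl, mul_one, RCLike.mul_conj, ← RCLike.ofReal_pow, RCLike.ofReal_re]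
      · intro F _ hF
        rw [if_neg (Ne.symm hF), mul_zero]
      · intro h
        exact (h hE).elim
    · intro F _
      exact (RIESZ_integrable E F).const_mul _
  · intro E _
    apply integrable_finsetSum
    intro F _
    exact (RIESZ_integrable E F).const_mul _

theorem RIESZ_norm_le (𝓔 : Finset (Finset I)) (a : Finset I → 𝕜) :
    ‖∑ E ∈ 𝓔, a E • RIESZ_W 𝕜 E‖ ^ 2 ≤ ∑ E ∈ 𝓔, ‖a E‖ ^ 2 := by
  rw [RIESZ_norm, ← RIESZ_int_sq]
  set f : (I → Bool) → ℝ := fun x => ‖∑ E ∈ 𝓔, a E * ((RIESZ_w E x : ℝ) : 𝕜)‖ with hf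
  have hm : Measurable f := by
    apply Measurable.norm
    apply Finset.measurable_sum
    intro E _
    exact (RCLike.continuous_ofReal.measurable.comp (RIESZ_w_meas E)).const_mul _
  have hb : ∀ x, ‖f x‖ ≤ ∑ E ∈ 𝓔, ‖a E‖ := by
    intro x
    rw [hf, norm_norm]
    refine (norm_sum_le _ _).trans (Finset.sum_le_sum fun E _ => ?_)
    rw [norm_mul, RCLike.norm_ofReal, RIESZ_w_abs, mul_one]
  have hi : Integrable f (coinPi I) :=
    Integrable.of_bound hm.aestronglyMeasurable _ (Filter.Eventually.of_forall hb)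
  have hi2 : Integrable (fun x => f x ^ 2) (coinPi I) := by
    apply Integrable.of_bound (hm.pow_const 2).aestronglyMeasurable ((∑ E ∈ 𝓔, ‖a E‖) ^ 2)
    filter_upwards with x
    rw [norm_pow]
    exact pow_le_pow_left₀ (norm_nonneg _) (hb x) 2
  set m := ∫ x, f x ∂(coinPi I) with hm2
  have h0 : 0 ≤ ∫ x, (f x - m) ^ 2 ∂(coinPi I) := integral_nonneg fun x => sq_nonneg _
  have h1 : (fun x => (f x - m) ^ 2) = fun x => f x ^ 2 - 2 * m * f x + m ^ 2 := by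
    funext x; ring
  have hi3 : Integrable (fun x => f x ^ 2 - 2 * m * f x) (coinPi I) := hi2.sub (hi.const_mul _)
  have h4 : ∫ x, (f x ^ 2 - 2 * m * f x + m ^ 2) ∂(coinPi I) =
      (∫ x, f x ^ 2 ∂(coinPi I)) - 2 * m * m + m ^ 2 := by
    rw [integral_add hi3 (integrable_const _), integral_sub hi2 (hi.const_mul _),
      integral_const_mul, integral_const, ← hm2, probReal_univ, one_smul]
  rw [h1, h4] at h0
  show m ^ 2 ≤ ∫ x, f x ^ 2 ∂(coinPi I)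
  nlinarith

theorem RIESZ_norm_one (i : I) : ‖RIESZ_W 𝕜 ({i} : Finset I)‖ = 1 := by
  have h := RIESZ_norm 𝕜 {({i} : Finset I)} (fun _ => 1)
  simp only [Finset.sum_singleton, one_smul, one_mul, RCLike.norm_ofReal, RIESZ_w_abs,
    integral_const, probReal_univ] at h
  exact h

/-- the sign of a set -/
def RIESZ_e (ε : I → ℝ) (E : Finset I) : ℝ := ∏ i ∈ E, ε i

/-- norm of a Riesz product -/
theorem RIESZ_R (F : Finset I) (ε : I → ℝ) (hε : ∀ i, |ε i| = 1) :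
    ‖∑ E ∈ F.powerset, ((RIESZ_e ε E : ℝ) : 𝕜) • RIESZ_W 𝕜 E‖ = 1 := by
  rw [RIESZ_norm]
  have h1 : ∀ x : I → Bool, ∑ E ∈ F.powerset, RIESZ_e ε E * RIESZ_w E x =
      ∏ i ∈ F, (1 + ε i * RIESZ_sg (x i)) := by
    intro x
    rw [Finset.prod_one_add]
    apply Finset.sum_congr rfl
    intro E _
    rw [RIESZ_e, RIESZ_w, Finset.prod_mul_distrib]
  have h2 : ∀ x : I → Bool, 0 ≤ ∑ E ∈ F.powerset, RIESZ_e ε E * RIESZ_w E x := by
    intro x
    rw [h1]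
    apply Finset.prod_nonneg
    intro i _
    have h3 : |ε i * RIESZ_sg (x i)| = 1 := by rw [abs_mul, hε, RIESZ_sg_abs, one_mul]
    have := neg_abs_le (ε i * RIESZ_sg (x i))
    linarith
  have h3 : ∀ x : I → Bool,
      ‖∑ E ∈ F.powerset, ((RIESZ_e ε E : ℝ) : 𝕜) * ((RIESZ_w E x : ℝ) : 𝕜)‖ =
      ∑ E ∈ F.powerset, RIESZ_e ε E * (RIESZ_w E x * RIESZ_w ∅ x) := by
    intro x
    have h4 : ∑ E ∈ F.powerset, ((RIESZ_e ε E : ℝ) : 𝕜) * ((RIESZ_w E x : ℝ) : 𝕜) =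
        ((∑ E ∈ F.powerset, RIESZ_e ε E * RIESZ_w E x : ℝ) : 𝕜) := by
      push_cast
      rfl
    rw [h4, RCLike.norm_ofReal, abs_of_nonneg (h2 x)]
    apply Finset.sum_congr rfl
    intro E _
    rw [show RIESZ_w (∅ : Finset I) x = 1 by simp [RIESZ_w], mul_one]
  simp only [h3]
  rw [integral_finsetSum]
  · rw [Finset.sum_congr rfl fun E _ => by rw [integral_const_mul, RIESZ_ortho]]
    rw [Finset.sum_eq_single ∅]
    · simp [RIESZ_e]
    · intro E _ hE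
      rw [if_neg hE, mul_zero]
    · intro h
      exact (h (Finset.empty_mem_powerset F)).elim
  · intro E _
    exact (RIESZ_integrable E ∅).const_mul _

variable {𝕜}
variable {Y : Type w} [NormedAddCommGroup Y] [NormedSpace 𝕜 Y]

theorem RIESZ_bessel (T : Lp 𝕜 1 (coinPi I) →L[𝕜] (Y →L[𝕜] 𝕜)) (y : Y)
    (𝓔 : Finset (Finset I)) : ∑ E ∈ 𝓔, ‖T (RIESZ_W 𝕜 E) y‖ ^ 2 ≤ (‖T‖ * ‖y‖) ^ 2 := by
  set S := ∑ E ∈ 𝓔, ‖T (RIESZ_W 𝕜 E) y‖ ^ 2 with hS
  have hS0 : 0 ≤ S := Finset.sum_nonneg fun E _ => by positivity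
  set a : Finset I → 𝕜 := fun E => (starRingEnd 𝕜) (T (RIESZ_W 𝕜 E) y) with ha
  have h1 : T (∑ E ∈ 𝓔, a E • RIESZ_W 𝕜 E) y = (S : 𝕜) := by
    rw [map_sum, sum_apply, hS]
    push_cast
    apply Finset.sum_congr rfl
    intro E _
    rw [map_smul, smul_apply, smul_eq_mul, ha]
    rw [RCLike.conj_mul]
  have h2 : ‖∑ E ∈ 𝓔, a E • RIESZ_W 𝕜 E‖ ^ 2 ≤ S := by
    refine (RIESZ_norm_le 𝕜 𝓔 a).trans (le_of_eq ?_)
    apply Finset.sum_congr rfl
    intro E _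
    rw [ha]
    simp only [RCLike.norm_conj]
  have h3 : S ≤ ‖T‖ * ‖∑ E ∈ 𝓔, a E • RIESZ_W 𝕜 E‖ * ‖y‖ := by
    calc S = ‖(S : 𝕜)‖ := by rw [RCLike.norm_ofReal, abs_of_nonneg hS0]
      _ = ‖T (∑ E ∈ 𝓔, a E • RIESZ_W 𝕜 E) y‖ := by rw [h1]
      _ ≤ ‖T (∑ E ∈ 𝓔, a E • RIESZ_W 𝕜 E)‖ * ‖y‖ := ContinuousLinearMap.le_opNorm _ _
      _ ≤ _ := by gcongr; exact ContinuousLinearMap.le_opNorm _ _
  set N := ‖∑ E ∈ 𝓔, a E • RIESZ_W 𝕜 E‖ with hN
  have hN0 : 0 ≤ N := norm_nonneg _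
  have hT : 0 ≤ ‖T‖ * ‖y‖ := by positivity
  by_cases hS1 : S = 0
  · rw [hS1]; positivity
  have hS2 : 0 < S := lt_of_le_of_ne hS0 (Ne.symm hS1)
  have h4 : S ^ 2 ≤ (‖T‖ * ‖y‖) ^ 2 * S := by
    calc S ^ 2 ≤ (‖T‖ * N * ‖y‖) ^ 2 := by gcongr
      _ = (‖T‖ * ‖y‖) ^ 2 * N ^ 2 := by ring
      _ ≤ (‖T‖ * ‖y‖) ^ 2 * S := by gcongr
  have h5 : S * S ≤ (‖T‖ * ‖y‖) ^ 2 * S := by rw [← sq]; exact h4
  exact le_of_mul_le_mul_right h5 hS2

/-- the coordinates seen by `y` -/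
def RIESZ_S (T : Lp 𝕜 1 (coinPi I) →L[𝕜] (Y →L[𝕜] 𝕜)) (y : Y) : Set I :=
  ⋃ E ∈ {E : Finset I | T (RIESZ_W 𝕜 E) y ≠ 0}, (E : Set I)

theorem RIESZ_S_countable (T : Lp 𝕜 1 (coinPi I) →L[𝕜] (Y →L[𝕜] 𝕜)) (y : Y) :
    (RIESZ_S T y).Countable := by
  have h1 : Summable fun E : Finset I => ‖T (RIESZ_W 𝕜 E) y‖ ^ 2 :=
    summable_of_sum_le (fun E => by positivity) (fun 𝓔 => RIESZ_bessel T y 𝓔)
  have h2 : {E : Finset I | T (RIESZ_W 𝕜 E) y ≠ 0}.Countable := by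
    apply h1.countable_support.mono
    intro E hE
    rw [Function.mem_support]
    have hE' : T (RIESZ_W 𝕜 E) y ≠ 0 := hE
    have := norm_pos_iff.2 hE'
    positivity
  exact h2.biUnion fun E _ => E.countable_toSet

theorem RIESZ_main (T : Lp 𝕜 1 (coinPi I) →L[𝕜] (Y →L[𝕜] 𝕜)) (c : ℝ) (y : I → Y) (Γ : Set I)
    (hy : ∀ i, c / 2 ≤ RCLike.re (T (RIESZ_W 𝕜 {i}) (y i)))
    (hΓ : ∀ i ∈ Γ, ∀ j ∈ Γ, i ≠ j → j ∉ RIESZ_S T (y i)) (F : Finset I) (hF : (F : Set I) ⊆ Γ)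
    (a : I → ℝ) : c * ∑ i ∈ F, |a i| ≤ 2 * ‖T‖ * ‖∑ i ∈ F, ((a i : ℝ) : 𝕜) • y i‖ := by
  set ε : I → ℝ := fun i => if 0 ≤ a i then 1 else -1 with hε
  have hε1 : ∀ i, |ε i| = 1 := by
    intro i
    rw [hε]
    by_cases h : 0 ≤ a i
    · simp [h]
    · simp [h]
  have hε2 : ∀ i, a i * ε i = |a i| := by
    intro i
    rw [hε]
    by_cases h : 0 ≤ a i
    · simp [h, abs_of_nonneg h]
    · simp only [h, if_false]
      rw [abs_of_neg (not_le.1 h)]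
      ring
  have hε3 : ∀ i, |(-ε) i| = 1 := by
    intro i
    rw [Pi.neg_apply, abs_neg, hε1]
  set R := ∑ E ∈ F.powerset, ((RIESZ_e ε E : ℝ) : 𝕜) • RIESZ_W 𝕜 E with hR
  set R' := ∑ E ∈ F.powerset, ((RIESZ_e (-ε) E : ℝ) : 𝕜) • RIESZ_W 𝕜 E with hR'
  have hRn : ‖R‖ = 1 := RIESZ_R 𝕜 F ε hε1
  have hRn' : ‖R'‖ = 1 := RIESZ_R 𝕜 F (-ε) hε3
  have hk : ∀ i ∈ F, T (R - R') (y i) = ((2 * ε i : ℝ) : 𝕜) * T (RIESZ_W 𝕜 {i}) (y i) := by
    intro i hi
    rw [hR, hR', ← Finset.sum_sub_distrib, map_sum, sum_apply,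
      Finset.sum_eq_single {i}]
    · rw [← sub_smul, map_smul, smul_apply, smul_eq_mul, ← RCLike.ofReal_sub]
      congr 2
      simp only [RIESZ_e, Finset.prod_singleton, Pi.neg_apply]
      ring
    · intro E hE hne
      rw [← sub_smul, map_smul, smul_apply, smul_eq_mul]
      rcases Finset.eq_empty_or_nonempty E with h0 | h0
      · subst h0
        simp [RIESZ_e]
      · have h1 : ∃ j ∈ E, j ≠ i := by
          by_contra hc
          push Not at hc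
          exact hne ((Finset.eq_singleton_iff_nonempty_unique_mem).2 ⟨h0, hc⟩)
        obtain ⟨j, hj, hji⟩ := h1
        have h2 : T (RIESZ_W 𝕜 E) (y i) = 0 := by
          by_contra hc
          refine hΓ i (hF hi) j (hF (Finset.mem_powerset.1 hE hj)) (Ne.symm hji) ?_
          exact Set.mem_biUnion (show E ∈ {E : Finset I | T (RIESZ_W 𝕜 E) (y i) ≠ 0} from hc) hj
        rw [h2, mul_zero]
    · intro h
      exact (h (Finset.mem_powerset.2 (Finset.singleton_subset_iff.2 hi))).elim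
  have h1 : T (R - R') (∑ i ∈ F, ((a i : ℝ) : 𝕜) • y i) =
      ∑ i ∈ F, ((2 * |a i| : ℝ) : 𝕜) * T (RIESZ_W 𝕜 {i}) (y i) := by
    rw [map_sum]
    apply Finset.sum_congr rfl
    intro i hi
    rw [map_smul, hk i hi, smul_eq_mul, ← mul_assoc, ← RCLike.ofReal_mul]
    congr 2
    rw [← hε2 i]
    ring
  have h2 : c * ∑ i ∈ F, |a i| ≤
      RCLike.re (T (R - R') (∑ i ∈ F, ((a i : ℝ) : 𝕜) • y i)) := by
    rw [h1, map_sum, Finset.mul_sum]
    apply Finset.sum_le_sum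
    intro i _
    rw [RCLike.re_ofReal_mul]
    have h3 := hy i
    have h4 := abs_nonneg (a i)
    nlinarith
  refine h2.trans ((RCLike.re_le_norm _).trans ?_)
  calc ‖T (R - R') (∑ i ∈ F, ((a i : ℝ) : 𝕜) • y i)‖
      ≤ ‖T (R - R')‖ * ‖∑ i ∈ F, ((a i : ℝ) : 𝕜) • y i‖ := ContinuousLinearMap.le_opNorm _ _
    _ ≤ (‖T‖ * ‖R - R'‖) * ‖∑ i ∈ F, ((a i : ℝ) : 𝕜) • y i‖ := by
        gcongr
        exact ContinuousLinearMap.le_opNorm _ _
    _ ≤ (‖T‖ * 2) * ‖∑ i ∈ F, ((a i : ℝ) : 𝕜) • y i‖ := by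
        gcongr
        refine (norm_sub_le _ _).trans ?_
        rw [hRn, hRn']
        norm_num
    _ = _ := by ring

end

theorem st_RIESZ (hFREE : ST_FREE.{u}) (hHB : ST_HB.{u, v, w}) : ST_RIESZ.{u, v, w} := by
  intro 𝕜 _ I Y _ _ T c hc hT hI
  have h1 : ∀ i : I, ∃ y : Y, ‖y‖ ≤ 1 ∧ c / 2 ≤ RCLike.re (T (RIESZ_W 𝕜 {i}) y) := by
    intro i
    have h2 : c ≤ ‖T (RIESZ_W 𝕜 {i})‖ := by
      have := hT (RIESZ_W 𝕜 {i})
      rwa [RIESZ_norm_one, mul_one] at this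
    obtain ⟨x, hx1, hx2⟩ := ContinuousLinearMap.exists_lt_apply_of_lt_opNorm
      (T (RIESZ_W 𝕜 {i})) (r := c / 2) (by linarith)
    set z := T (RIESZ_W 𝕜 {i}) x with hz
    have hz0 : 0 < ‖z‖ := by linarith
    refine ⟨((starRingEnd 𝕜) z / (‖z‖ : 𝕜)) • x, ?_, ?_⟩
    · rw [norm_smul, norm_div, RCLike.norm_conj, RCLike.norm_ofReal, abs_of_pos hz0,
        div_self hz0.ne', one_mul]
      exact hx1.le
    · rw [map_smul, smul_eq_mul, ← hz, div_mul_eq_mul_div, RCLike.conj_mul, sq, mul_div_assoc,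
        div_self (by exact_mod_cast hz0.ne'), mul_one, RCLike.ofReal_re]
      exact hx2.le
  choose y hy1 hy2 using h1
  obtain ⟨Γ, hΓ, hΓ2⟩ := hFREE I hI (fun i => RIESZ_S T (y i)) (fun i => RIESZ_S_countable T (y i))
  obtain ⟨e⟩ := Cardinal.eq.1 hΓ.symm
  apply hHB 𝕜 I Y (c / (2 * (‖T‖ + 1))) (fun i => y (e i)) (by positivity) (fun i => hy1 _)
  intro F a
  set f : I ↪ I := e.toEmbedding.trans (Function.Embedding.subtype _) with hf
  have hfe : ∀ i, f i = (e i : I) := fun i => rfl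
  set a' : I → ℝ := fun j => if h : j ∈ Γ then a (e.symm ⟨j, h⟩) else 0 with ha'
  have ha2 : ∀ i, a' (f i) = a i := by
    intro i
    rw [ha', hfe]
    simp
  have h3 := RIESZ_main T c y Γ hy2 hΓ2 (F.map f) (by
    intro j hj
    rw [Finset.coe_map] at hj
    obtain ⟨i, _, rfl⟩ := hj
    exact (e i).2) a'
  have e1 : ∑ j ∈ F.map f, |a' j| = ∑ i ∈ F, |a i| := by
    rw [Finset.sum_map]
    exact Finset.sum_congr rfl fun i _ => by rw [ha2 i]
  have e2 : ∑ j ∈ F.map f, ((a' j : ℝ) : 𝕜) • y j = ∑ i ∈ F, ((a i : ℝ) : 𝕜) • y (e i) := by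
    rw [Finset.sum_map]
    exact Finset.sum_congr rfl fun i _ => by rw [ha2 i, hfe i]
  rw [e1, e2] at h3
  rw [div_mul_eq_mul_div, div_le_iff₀ (by positivity)]
  refine h3.trans ?_
  have h4 := norm_nonneg (∑ i ∈ F, ((a i : ℝ) : 𝕜) • y (e i))
  nlinarith [norm_nonneg T]

end DualL1
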