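import Pool.Agent.Helper60.L1Full.Stmts

/-!
# SMALL: an upper `2`-estimate forces small differences
-/

namespace DualL1

open MeasureTheory Cardinal
open scoped ENNReal Classical

universe u v

section
variable {𝕜 : Type v} [RCLike 𝕜] {Ω : Type u} [MeasurableSpace Ω] {μ : Measure Ω}

/-- the mass of `f` on the sets of `G` -/
noncomputable def SMALL_m (f : Lp 𝕜 1 μ) (G : Finset (Set Ω)) : ℝ :=
  ∑ A ∈ G, ∫ x in A, ‖(f : Ω → 𝕜) x‖ ∂μ

theorem SMALL_int (f : Lp 𝕜 1 μ) : Integrable (fun x => ‖(f : Ω → 𝕜) x‖) μ :=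
  (L1.integrable_coeFn f).norm

theorem SMALL_m_nonneg (f : Lp 𝕜 1 μ) (G : Finset (Set Ω)) : 0 ≤ SMALL_m f G :=
  Finset.sum_nonneg fun A _ => integral_nonneg fun x => norm_nonneg _

theorem SMALL_m_mono (f : Lp 𝕜 1 μ) {G G' : Finset (Set Ω)} (h : G ⊆ G') :
    SMALL_m f G ≤ SMALL_m f G' :=
  Finset.sum_le_sum_of_subset_of_nonneg h fun A _ _ => integral_nonneg fun x => norm_nonneg _

theorem SMALL_m_union (f : Lp 𝕜 1 μ) {G G' : Finset (Set Ω)} (h : Disjoint G G') :
    SMALL_m f (G ∪ G') = SMALL_m f G + SMALL_m f G' :=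
  Finset.sum_union h

theorem SMALL_m_tri (f g : Lp 𝕜 1 μ) (G : Finset (Set Ω)) :
    SMALL_m f G ≤ SMALL_m (f + g) G + SMALL_m g G := by
  unfold SMALL_m
  rw [← Finset.sum_add_distrib]
  apply Finset.sum_le_sum
  intro A _
  rw [← integral_add (SMALL_int (f + g)).integrableOn (SMALL_int g).integrableOn]
  apply integral_mono_ae (SMALL_int f).integrableOn
    ((SMALL_int (f + g)).integrableOn.add (SMALL_int g).integrableOn)
  filter_upwards [ae_restrict_of_ae (Lp.coeFn_add f g)] with x hx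
  show ‖(f : Ω → 𝕜) x‖ ≤ ‖((f + g : Lp 𝕜 1 μ) : Ω → 𝕜) x‖ + ‖(g : Ω → 𝕜) x‖
  rw [hx, Pi.add_apply]
  calc ‖(f : Ω → 𝕜) x‖ = ‖((f : Ω → 𝕜) x + (g : Ω → 𝕜) x) - (g : Ω → 𝕜) x‖ := by
        rw [add_sub_cancel_right]
    _ ≤ _ := norm_sub_le _ _

theorem SMALL_m_tri' (f g : Lp 𝕜 1 μ) (G : Finset (Set Ω)) :
    SMALL_m g G ≤ SMALL_m (f + g) G + SMALL_m f G := by
  rw [add_comm f g]
  exact SMALL_m_tri g f G

theorem SMALL_m_le (𝒜 : Set (Set Ω)) (hm : ∀ A ∈ 𝒜, MeasurableSet A)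
    (hd : 𝒜.Pairwise (fun A B => μ (A ∩ B) = 0)) (f : Lp 𝕜 1 μ) (G : Finset (Set Ω))
    (hG : ∀ A ∈ G, A ∈ 𝒜) : SMALL_m f G ≤ ‖f‖ := by
  rw [L1.norm_eq_integral_norm]
  unfold SMALL_m
  have h1 : ∀ A ∈ G, ∫ x in A, ‖(f : Ω → 𝕜) x‖ ∂μ =
      ∫ x, A.indicator (fun x => ‖(f : Ω → 𝕜) x‖) x ∂μ := by
    intro A hA
    rw [integral_indicator (hm A (hG A hA))]
  rw [Finset.sum_congr rfl h1, ← integral_finsetSum]
  · apply integral_mono_ae
    · apply integrable_finsetSum
      intro A hA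
      exact (SMALL_int f).indicator (hm A (hG A hA))
    · exact SMALL_int f
    · have h2 : ∀ᵐ x ∂μ, ∀ p ∈ G ×ˢ G, p.1 ≠ p.2 → x ∉ p.1 ∩ p.2 := by
        rw [Filter.eventually_all_finset]
        rintro ⟨A, B⟩ hp
        rw [Finset.mem_product] at hp
        by_cases hAB : A = B
        · exact Filter.Eventually.of_forall fun x h => (h hAB).elim
        · have h3 := hd (hG A hp.1) (hG B hp.2) hAB
          have h4 : ∀ᵐ x ∂μ, x ∉ A ∩ B := by
            rw [ae_iff]
            simpa using h3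
          filter_upwards [h4] with x hx _
          exact hx
      filter_upwards [h2] with x hx
      by_cases hA : ∃ A ∈ G, x ∈ A
      · obtain ⟨A, hA, hxA⟩ := hA
        rw [Finset.sum_eq_single A]
        · rw [Set.indicator_of_mem hxA]
        · intro B hB hBA
          apply Set.indicator_of_notMem
          intro hxB
          exact hx (A, B) (Finset.mem_product.2 ⟨hA, hB⟩) (Ne.symm hBA) ⟨hxA, hxB⟩
        · intro h
          exact (h hA).elim
      · push Not at hA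
        rw [Finset.sum_eq_zero fun A hAG => Set.indicator_of_notMem (hA A hAG) _]
        exact norm_nonneg _
  · intro A hA
    exact (SMALL_int f).indicator (hm A (hG A hA))

theorem SMALL_tail (𝒜 : Set (Set Ω)) (hm : ∀ A ∈ 𝒜, MeasurableSet A)
    (hd : 𝒜.Pairwise (fun A B => μ (A ∩ B) = 0)) (f : Lp 𝕜 1 μ) {δ : ℝ} (hδ : 0 < δ) :
    ∃ G : Finset (Set Ω), (∀ A ∈ G, A ∈ 𝒜) ∧ ∀ G' : Finset (Set Ω), (∀ A ∈ G', A ∈ 𝒜) →
      Disjoint G G' → SMALL_m f G' ≤ δ := by
  set s : Set ℝ := {r | ∃ G : Finset (Set Ω), (∀ A ∈ G, A ∈ 𝒜) ∧ SMALL_m f G = r} with hs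
  have hne : s.Nonempty := ⟨SMALL_m f ∅, ∅, by simp, rfl⟩
  have hbd : BddAbove s := by
    refine ⟨‖f‖, ?_⟩
    rintro r ⟨G, hG, rfl⟩
    exact SMALL_m_le 𝒜 hm hd f G hG
  obtain ⟨r, ⟨G, hG, rfl⟩, hr⟩ := exists_lt_of_lt_csSup hne (show sSup s - δ < sSup s by linarith)
  refine ⟨G, hG, fun G' hG' hdis => ?_⟩
  have h1 : SMALL_m f (G ∪ G') ≤ sSup s := by
    apply le_csSup hbd
    refine ⟨G ∪ G', ?_, rfl⟩
    intro A hA
    rcases Finset.mem_union.1 hA with h | h
    · exact hG A h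
    · exact hG' A h
  rw [SMALL_m_union f hdis] at h1
  linarith

theorem SMALL_pigeon (𝒜 : Set (Set Ω)) {I : Type u} (z : I → Lp 𝕜 1 μ) (hI : ℵ₀ < #I)
    (hdens : ∀ A ∈ 𝒜, ∃ (N : Type u) (d : N → Lp 𝕜 1 (μ.restrict A)), #N < #I ∧ DenseRange d)
    (G : Finset (Set Ω)) (hG : ∀ A ∈ G, A ∈ 𝒜) :
    ∀ δ : ℝ, 0 < δ → ∃ (M : Type u) (f : I → M), #M < #I ∧
      ∀ ξ η, f ξ = f η → SMALL_m (z ξ - z η) G < δ := by
  induction G using Finset.induction_on with
  | empty =>
    intro δ hδ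
    refine ⟨PUnit, fun _ => PUnit.unit, ?_, fun ξ η _ => ?_⟩
    · rw [Cardinal.mk_punit]
      exact Cardinal.one_lt_aleph0.trans hI
    · simp only [SMALL_m, Finset.sum_empty]
      exact hδ
  | insert A G hA ih =>
    intro δ hδ
    obtain ⟨M, f, hM, hf⟩ := ih (fun B hB => hG B (Finset.mem_insert_of_mem hB)) (δ / 2) (by linarith)
    obtain ⟨N, d, hN, hd⟩ := hdens A (hG A (Finset.mem_insert_self A G))
    have hr : ∀ ξ, ∃ n, ‖((Lp.memLp (z ξ)).restrict A).toLp (z ξ : Ω → 𝕜) - d n‖ < δ / 4 := by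
      intro ξ
      obtain ⟨n, hn⟩ := hd.exists_dist_lt (((Lp.memLp (z ξ)).restrict A).toLp (z ξ : Ω → 𝕜))
        (show 0 < δ / 4 by linarith)
      exact ⟨n, by rwa [← dist_eq_norm]⟩
    choose g hg using hr
    refine ⟨M × N, fun ξ => (f ξ, g ξ), ?_, fun ξ η hξη => ?_⟩
    · rw [Cardinal.mk_prod, Cardinal.lift_id, Cardinal.lift_id]
      exact Cardinal.mul_lt_of_lt hI.le hM hN
    · have h1 : f ξ = f η := congrArg Prod.fst hξη
      have h2 : g ξ = g η := congrArg Prod.snd hξη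
      have h3 : SMALL_m (z ξ - z η) (insert A G) = (∫ x in A, ‖((z ξ - z η : Lp 𝕜 1 μ) : Ω → 𝕜) x‖ ∂μ) +
          SMALL_m (z ξ - z η) G := Finset.sum_insert hA
      rw [h3]
      have h4 : ∫ x in A, ‖((z ξ - z η : Lp 𝕜 1 μ) : Ω → 𝕜) x‖ ∂μ =
          ‖((Lp.memLp (z ξ)).restrict A).toLp (z ξ : Ω → 𝕜) -
            ((Lp.memLp (z η)).restrict A).toLp (z η : Ω → 𝕜)‖ := by
        rw [L1.norm_eq_integral_norm]
        apply integral_congr_ae
        filter_upwards [ae_restrict_of_ae (Lp.coeFn_sub (z ξ) (z η)),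
          Lp.coeFn_sub (((Lp.memLp (z ξ)).restrict A).toLp (z ξ : Ω → 𝕜))
            (((Lp.memLp (z η)).restrict A).toLp (z η : Ω → 𝕜)),
          ((Lp.memLp (z ξ)).restrict A).coeFn_toLp, ((Lp.memLp (z η)).restrict A).coeFn_toLp]
          with x e1 e2 e3 e4
        rw [e1, e2, Pi.sub_apply, Pi.sub_apply, e3, e4]
      have h5 : ‖((Lp.memLp (z ξ)).restrict A).toLp (z ξ : Ω → 𝕜) -
            ((Lp.memLp (z η)).restrict A).toLp (z η : Ω → 𝕜)‖ < δ / 4 + δ / 4 := by
        have h6 := hg ξ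
        have h7 := hg η
        rw [← h2] at h7
        calc _ = ‖(((Lp.memLp (z ξ)).restrict A).toLp (z ξ : Ω → 𝕜) - d (g ξ)) -
            (((Lp.memLp (z η)).restrict A).toLp (z η : Ω → 𝕜) - d (g ξ))‖ := by
              rw [sub_sub_sub_cancel_right]
          _ ≤ _ := norm_sub_le _ _
          _ < δ / 4 + δ / 4 := add_lt_add h6 h7
      have h6 := hf ξ η h1
      rw [h4]
      linarith

end

theorem st_SMALL : ST_SMALL.{u, v} := by
  intro 𝕜 _ Ω _ μ 𝒜 I C z hI hm hd hdens hup ε hε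
  by_contra hcon
  push Not at hcon
  have hcon' : ∀ ξ η : I, ξ ≠ η → ∃ G : Finset (Set Ω), (∀ A ∈ G, A ∈ 𝒜) ∧
      ε < SMALL_m (z ξ - z η) G := fun ξ η h => hcon ξ η h
  set δ := ε / 6 with hδ
  have hδ0 : 0 < δ := by positivity
  have key : ∀ n : ℕ, ∃ (U : Finset I) (a : I → 𝕜) (G : Finset (Set Ω)), U.card ≤ 2 * n ∧
      (∀ i, ‖a i‖ ≤ 1) ∧ (∀ A ∈ G, A ∈ 𝒜) ∧
      (∀ G' : Finset (Set Ω), (∀ A ∈ G', A ∈ 𝒜) → Disjoint G G' →
        SMALL_m (∑ i ∈ U, a i • z i) G' ≤ δ) ∧ n * (ε / 2) ≤ SMALL_m (∑ i ∈ U, a i • z i) G := by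
    intro n
    induction n with
    | zero =>
      obtain ⟨G, hG1, hG2⟩ := SMALL_tail 𝒜 hm hd (∑ i ∈ (∅ : Finset I), (0 : 𝕜) • z i) hδ0
      refine ⟨∅, fun _ => 0, G, by simp, fun _ => by simp, hG1, hG2, ?_⟩
      rw [Nat.cast_zero, zero_mul]
      exact SMALL_m_nonneg _ _
    | succ n ih =>
      obtain ⟨U, a, G, hU, ha, hG, ht, hmass⟩ := ih
      set S := ∑ i ∈ U, a i • z i with hS
      -- pigeonhole
      obtain ⟨M, f, hM, hf⟩ := SMALL_pigeon 𝒜 z hI hdens G hG δ hδ0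
      have hpig : ∃ ξ η : I, ξ ∉ U ∧ η ∉ U ∧ ξ ≠ η ∧ f ξ = f η := by
        by_contra hc
        push Not at hc
        have hinj : Function.Injective (fun i : {i : I // i ∉ U} => f i) := by
          intro i j hij
          by_contra hne
          exact hc i j i.2 j.2 (fun h => hne (Subtype.ext h)) hij
        have h1 : #{i : I // i ∉ U} ≤ #M := Cardinal.mk_le_of_injective hinj
        have h2 : #I ≤ #{i : I // i ∉ U} + #{i : I // i ∈ U} := by
          rw [add_comm]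
          exact (Cardinal.mk_sum_compl (U : Set I)).symm.le
        have h3 : #{i : I // i ∈ U} < #I := by
          refine lt_of_lt_of_le ?_ hI.le
          exact Cardinal.lt_aleph0_of_finite _
        have h4 : #{i : I // i ∉ U} + #{i : I // i ∈ U} < #I :=
          Cardinal.add_lt_of_lt hI.le (h1.trans_lt hM) h3
        exact absurd h2 (not_le.2 h4)
      obtain ⟨ξ, η, hξ, hη, hξη, hfe⟩ := hpig
      set d := z ξ - z η with hd'
      have hd1 : SMALL_m d G < δ := hf ξ η hfe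
      obtain ⟨G1, hG1, hd2⟩ := hcon' ξ η hξη
      obtain ⟨G2, hG2, ht2⟩ := SMALL_tail 𝒜 hm hd (S + d) hδ0
      set U' := insert ξ (insert η U) with hU'
      set a' : I → 𝕜 := fun i => if i = ξ then 1 else if i = η then -1 else a i with ha'
      have hS' : ∑ i ∈ U', a' i • z i = S + d := by
        have hηξ : η ≠ ξ := Ne.symm hξη
        have hξ' : ξ ∉ insert η U := by
          rw [Finset.mem_insert]
          push Not
          exact ⟨hξη, hξ⟩
        rw [hU', Finset.sum_insert hξ', Finset.sum_insert hη]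
        have e1 : a' ξ • z ξ = z ξ := by simp only [ha', if_true, one_smul]
        have e2 : a' η • z η = - z η := by
          simp only [ha', if_neg hηξ, if_true, neg_smul, one_smul]
        have e3 : ∑ i ∈ U, a' i • z i = S := by
          rw [hS]
          apply Finset.sum_congr rfl
          intro i hi
          have hiξ : i ≠ ξ := fun h => hξ (h ▸ hi)
          have hiη : i ≠ η := fun h => hη (h ▸ hi)
          simp only [ha', if_neg hiξ, if_neg hiη]
        rw [e1, e2, e3, hd']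
        abel
      set G' := G ∪ G1 ∪ G2 with hG'
      have hG'm : ∀ A ∈ G', A ∈ 𝒜 := by
        intro A hA
        rcases Finset.mem_union.1 hA with h | h
        · rcases Finset.mem_union.1 h with h | h
          · exact hG A h
          · exact hG1 A h
        · exact hG2 A h
      refine ⟨U', a', G', ?_, ?_, hG'm, ?_, ?_⟩
      · calc U'.card ≤ U.card + 1 + 1 :=
            (Finset.card_insert_le _ _).trans (Nat.add_le_add_right (Finset.card_insert_le _ _) 1)
          _ ≤ 2 * (n + 1) := by omega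
      · intro i
        simp only [ha']
        split_ifs
        · simp
        · simp
        · exact ha i
      · intro G'' hG'' hdis
        rw [hS']
        apply ht2 G'' hG''
        exact Finset.disjoint_of_subset_left Finset.subset_union_right hdis
      · rw [hS']
        have hsub : G ⊆ G' := (Finset.subset_union_left).trans Finset.subset_union_left
        have hsub1 : G1 ⊆ G' := (Finset.subset_union_right).trans Finset.subset_union_left
        have hdis : Disjoint G (G' \ G) := Finset.disjoint_sdiff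
        have hdec : G ∪ (G' \ G) = G' := Finset.union_sdiff_of_subset hsub
        have e0 : ∀ g : Lp 𝕜 1 μ, SMALL_m g G' = SMALL_m g G + SMALL_m g (G' \ G) := by
          intro g
          rw [← SMALL_m_union g hdis, hdec]
        have e1 := SMALL_m_tri S d G
        have e2 := SMALL_m_tri' S d (G' \ G)
        have e3 := ht (G' \ G) (fun A hA => hG'm A (Finset.mem_sdiff.1 hA).1) hdis
        have e4 := SMALL_m_mono d hsub1
        have e5 := e0 d
        rw [e0]
        push_cast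
        linarith
  -- contradiction
  have h1 : ∀ n : ℕ, (n : ℝ) * (ε / 2) ≤ |C| * Real.sqrt (2 * n) := by
    intro n
    obtain ⟨U, a, G, hU, ha, hG, -, hmass⟩ := key n
    calc (n : ℝ) * (ε / 2) ≤ SMALL_m (∑ i ∈ U, a i • z i) G := hmass
      _ ≤ ‖∑ i ∈ U, a i • z i‖ := SMALL_m_le 𝒜 hm hd _ G hG
      _ ≤ C * Real.sqrt U.card := hup U a ha
      _ ≤ |C| * Real.sqrt U.card := by
          gcongr
          exact le_abs_self C
      _ ≤ |C| * Real.sqrt (2 * n) := by
          gcongr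
          exact_mod_cast hU
  obtain ⟨n, hn⟩ := exists_nat_gt (8 * C ^ 2 / ε ^ 2 + 1)
  have hn0 : (0 : ℝ) < n := by
    have : 0 ≤ 8 * C ^ 2 / ε ^ 2 := by positivity
    linarith
  have h2 := h1 n
  have h3 : ((n : ℝ) * (ε / 2)) ^ 2 ≤ (|C| * Real.sqrt (2 * n)) ^ 2 := by gcongr
  rw [mul_pow, mul_pow |C|, sq_abs, Real.sq_sqrt (by positivity)] at h3
  have h4 : (n : ℝ) * ε ^ 2 ≤ 8 * C ^ 2 := by
    have h5 : (n : ℝ) * ((n : ℝ) * ε ^ 2) ≤ (n : ℝ) * (8 * C ^ 2) := by nlinarith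
    exact le_of_mul_le_mul_left h5 hn0
  have h5 : (n : ℝ) ≤ 8 * C ^ 2 / ε ^ 2 := by
    rw [le_div_iff₀ (by positivity)]
    exact h4
  linarith

end DualL1
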